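import Pool.Agent.Helper64.EC.Model

/-!
Components of a neighbourhood assignment.
-/

namespace Pool.Agent.Helper64.EC

open Pool.Agent.Helper73.Sym

set_option synthInstance.maxSize 2000

section

variable {M : Type*} [Membership M M] [StdZF M]

/-- the assignment `f` witnesses the normality of `Z` -/
def WitS (Y f Z : M) : Prop :=
  ∀ a, a ∈ Z → ∀ b, b ∈ Y → ¬ b ∈ Z → ∀ z, z ∈ ap f a → ¬ z ∈ ap f b

instance Dfn.witS {t u w : (ℕ → M) → M} [ht : DT t] [hu : DT u] [hw : DT w] :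
    Dfn (fun v => WitS (t v) (u v) (w v)) :=
  Dfn.rel3 (R := WitS) (inferInstanceAs (Dfn (fun v : ℕ → M =>
    ∀ a, a ∈ v 2 → ∀ b, b ∈ v 0 → ¬ b ∈ v 2 → ∀ z, z ∈ ap (v 1) a → ¬ z ∈ ap (v 1) b))) ht hu hw

/-- the component of `y` with respect to the assignment `f` -/
noncomputable def cmp (Y f y : M) : M :=
  sep Y (fun y' => ∀ Z, Sub Z Y → WitS Y f Z → y ∈ Z → y' ∈ Z)

theorem mem_cmp (Y f y y' : M) :
    y' ∈ cmp Y f y ↔ y' ∈ Y ∧ ∀ Z, Sub Z Y → WitS Y f Z → y ∈ Z → y' ∈ Z := by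
  rw [cmp, mem_sep]

instance DT.cmp' {t u w : (ℕ → M) → M} [ht : DT t] [hu : DT u] [hw : DT w] :
    DT (fun v => cmp (t v) (u v) (w v)) :=
  DT.app3 (Dfn.congr (S := fun v : ℕ → M => ∀ z, z ∈ v 0 ↔ (z ∈ v 1 ∧
      ∀ Z, Sub Z (v 1) → WitS (v 1) (v 2) Z → v 3 ∈ Z → z ∈ Z)) inferInstance
    fun v => ⟨fun h z => by rw [h, mem_cmp], fun h => mext fun z => by rw [h, mem_cmp]⟩)
    ht hu hw

theorem cmp_sub (Y f y : M) : Sub (cmp Y f y) Y := fun z hz => ((mem_cmp Y f y z).1 hz).1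

theorem cmp_self {Y f y : M} (hy : y ∈ Y) : y ∈ cmp Y f y :=
  (mem_cmp Y f y y).2 ⟨hy, fun _ _ _ h => h⟩

theorem cmp_wit {Y f y y' Z : M} (h : y' ∈ cmp Y f y) (hZ : Sub Z Y) (hw : WitS Y f Z)
    (hy : y ∈ Z) : y' ∈ Z := ((mem_cmp Y f y y').1 h).2 Z hZ hw hy

theorem witS_df {Y f Z : M} (h : WitS Y f Z) : WitS Y f (df Y Z) := by
  intro a ha b hb hbZ z hza hzb
  rw [mem_df] at ha hbZ
  have hb' : b ∈ Z := by
    by_contra hc
    exact hbZ ⟨hb, hc⟩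
  exact h b hb' a ha.1 ha.2 z hzb hza

theorem df_sub' (Y Z : M) : Sub (df Y Z) Y := fun z hz => ((mem_df Y Z z).1 hz).1

theorem cmp_wit' {Y f y y' Z : M} (h : y' ∈ cmp Y f y) (hyY : y ∈ Y) (hw : WitS Y f Z)
    (hy : ¬ y ∈ Z) : ¬ y' ∈ Z := by
  have := cmp_wit h (df_sub' Y Z) (witS_df hw) ((mem_df Y Z y).2 ⟨hyY, hy⟩)
  exact ((mem_df Y Z y').1 this).2

theorem cmp_of_meet {Y f y y' z : M} (hy' : y' ∈ Y) (h : z ∈ ap f y) (h' : z ∈ ap f y') :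
    y' ∈ cmp Y f y := by
  refine (mem_cmp Y f y y').2 ⟨hy', fun Z _ hw hyZ => ?_⟩
  by_contra hc
  exact hw y hyZ y' hy' hc z h h'

theorem cmp_symm {Y f y y' : M} (hy : y ∈ Y) (h : y' ∈ cmp Y f y) : y ∈ cmp Y f y' := by
  refine (mem_cmp Y f y' y).2 ⟨hy, fun Z _ hw hyZ => ?_⟩
  by_contra hc
  exact cmp_wit' h hy hw hc hyZ

theorem cmp_trans {Y f x y z : M} (h : y ∈ cmp Y f x) (h' : z ∈ cmp Y f y) :
    z ∈ cmp Y f x := by
  refine (mem_cmp Y f x z).2 ⟨cmp_sub _ _ _ _ h', fun Z hZ hw hx => ?_⟩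
  exact cmp_wit h' hZ hw (cmp_wit h hZ hw hx)

theorem cmp_eq {Y f y y' : M} (hy : y ∈ Y) (h : y' ∈ cmp Y f y) : cmp Y f y' = cmp Y f y :=
  mext fun _ => ⟨fun hz => cmp_trans h hz, fun hz => cmp_trans (cmp_symm hy h) hz⟩

end

section

variable {M : Type} [Membership M M] [StdZF M]

/-- if every assignment of the family has an uncountable component, the family does not witness
the normality of all sets -/
theorem exists_ctb_comp (hAC : AC M) {W : M} (hPB : PB W) {Y F j e : M}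
    (hj : Fn j F (pw om)) (hji : ∀ a b : M, a ∈ F → b ∈ F → ap j a = ap j b → a = b)
    (he : Fn e Y W) (hei : ∀ a b : M, a ∈ Y → b ∈ Y → ap e a = ap e b → a = b)
    (hF : ∀ Z : M, Sub Z Y → ∃ f, f ∈ F ∧ WitS Y f Z) :
    ∃ f : M, f ∈ F ∧ ∀ y, y ∈ Y → Ctb (cmp Y f y) := by
  by_contra hc
  push Not at hc
  obtain ⟨c, hcf, hcu⟩ := exists_choice hAC F Y (fun f y => ¬ Ctb (cmp Y f y)) hc
  set K : M := rel (pw om) W (fun r x => ∃ f, f ∈ F ∧ r = ap j f ∧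
    ∃ y, y ∈ cmp Y f (ap c f) ∧ x = ap e y) with hK
  obtain ⟨Z, hZ⟩ := hPB K
  obtain ⟨f, hf, hw⟩ := hF (sep Y (fun y => ap e y ∈ Z)) (fun y hy => ((mem_sep _ _ _).1 hy).1)
  have hr : ap j f ∈ pw om := ap_mem hj hf
  have hcfY : ap c f ∈ Y := ap_mem hcf hf
  -- the section of `K`
  have hsec : ∀ x, op (ap j f) x ∈ K → ∃ y, y ∈ cmp Y f (ap c f) ∧ x = ap e y := by
    intro x hx
    obtain ⟨_, _, f', hf', h1, y, hy, h2⟩ := (op_mem_rel _ _ _ _ _).1 hx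
    have : f = f' := hji _ _ hf hf' h1
    subst this
    exact ⟨y, hy, h2⟩
  have hsec' : ∀ y, y ∈ cmp Y f (ap c f) → ap e y ∈ sec W K (ap j f) := by
    intro y hy
    have hy' := cmp_sub _ _ _ _ hy
    rw [mem_sec]
    exact ⟨ap_mem he hy', (op_mem_rel _ _ _ _ _).2 ⟨hr, ap_mem he hy', f, hf, rfl, y, hy, rfl⟩⟩
  have hunc : ¬ Ctb (sec W K (ap j f)) := by
    rintro ⟨g, hg, hgi⟩
    apply hcu f hf
    refine Ctb.of_inj (fun a => ap g (ap e a)) (fun a ha => ap_mem hg (hsec' a ha))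
      (fun a b ha hb hab => ?_)
    exact hei _ _ (cmp_sub _ _ _ _ ha) (cmp_sub _ _ _ _ hb)
      (hgi _ _ (hsec' a ha) (hsec' b hb) hab)
  obtain ⟨h1, h2⟩ := hZ (ap j f) ((mem_pw _ _).1 hr)
  obtain ⟨x, _, hx, hxZ⟩ := h1.resolve_left hunc
  obtain ⟨x', _, hx', hxZ'⟩ := h2.resolve_left hunc
  obtain ⟨y, hy, rfl⟩ := hsec x hx
  obtain ⟨y', hy', rfl⟩ := hsec x' hx'
  have hyZ : y ∈ sep Y (fun y => ap e y ∈ Z) := (mem_sep _ _ _).2 ⟨cmp_sub _ _ _ _ hy, hxZ⟩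
  by_cases hcZ : ap c f ∈ sep Y (fun y => ap e y ∈ Z)
  · have := cmp_wit hy' (fun y hy => ((mem_sep _ _ _).1 hy).1) hw hcZ
    exact hxZ' ((mem_sep _ _ _).1 this).2
  · exact cmp_wit' hy hcfY hw hcZ hyZ

end

end Pool.Agent.Helper64.EC
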