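import Pool.Agent.Helper73.Sym.Cohen

/-!
The index set of the Cohen reals, the trivial group, the codes of names of reals.
-/

namespace Pool.Agent.Helper64.EC

open Pool.Agent.Helper73.Sym Cardinal

/-! ### the trivial group -/

/-- the group with one element -/
inductive Tr | e

instance : Group Tr where
  mul _ _ := .e
  one := .e
  inv _ := .e
  mul_assoc _ _ _ := rfl
  one_mul a := by cases a; rfl
  mul_one a := by cases a; rfl
  inv_mul_cancel a := rfl

instance (priority := 10) trAct (I : Type) : MulAction Tr I where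
  smul _ i := i
  one_smul _ := rfl
  mul_smul _ _ _ := rfl

theorem tr_smul {I : Type} (g : Tr) (i : I) : g • i = i := rfl

instance (I : Type) : Spp Tr I where
  S := Set.univ
  empty := trivial
  union _ _ := trivial
  smul _ {A} _ := ⟨A, trivial, fun _ ha => ha⟩
  sing i := ⟨{i}, trivial, rfl⟩

theorem tr_smul_nm {I : Type} (g : Tr) (x : Nm (Coh I)) : g • x = x := by
  induction x with
  | mk ι τ c ih =>
    rw [Nm.smul_mk]
    congr 1
    funext i
    exact ih i

/-- every name is hereditarily symmetric -/
theorem hs_all {I : Type} (x : Nm (Coh I)) : HS Tr x := by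
  induction x with
  | mk ι τ c ih =>
    refine HS.intro (symm_of_fixed fun g => tr_smul_nm g _) fun i => ih i

/-! ### the first uncountable well-order -/

/-- the first uncountable well-order -/
def Om : Type := (Cardinal.aleph 1).ord.ToType

noncomputable instance : LinearOrder Om :=
  inferInstanceAs (LinearOrder (Cardinal.aleph 1).ord.ToType)

instance : WellFoundedLT Om := inferInstanceAs (WellFoundedLT (Cardinal.aleph 1).ord.ToType)

theorem Om.iio (ξ : Om) : (Set.Iio ξ).Countable := by
  have h1 : Cardinal.mk (Set.Iio ξ) < Cardinal.aleph 1 := by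
    have := Cardinal.mk_Iio_lt (α := (Cardinal.aleph 1).ord.ToType) ξ (by simp)
    rwa [Cardinal.mk_ord_toType] at this
  rw [Cardinal.lt_aleph_one_iff] at h1
  exact Cardinal.le_aleph0_iff_set_countable.1 h1

theorem Om.not_countable : ¬ Countable Om := by
  intro h
  have h1 : Cardinal.mk Om = Cardinal.aleph 1 := Cardinal.mk_ord_toType _
  have h2 : Cardinal.mk Om ≤ Cardinal.aleph0 := Cardinal.mk_le_aleph0_iff.2 h
  rw [h1] at h2
  exact absurd h2 (not_le.2 Cardinal.aleph0_lt_aleph_one)

/-- countable sets are bounded -/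
theorem Om.bdd {s : Set Om} (hs : s.Countable) : ∃ ξ, ∀ x ∈ s, x < ξ := by
  by_contra hc
  push Not at hc
  apply Om.not_countable
  have h1 : (⋃ x ∈ s, (Set.Iio x ∪ {x})).Countable :=
    hs.biUnion fun x _ => (Om.iio x).union (Set.countable_singleton x)
  have h2 : (Set.univ : Set Om) ⊆ ⋃ x ∈ s, (Set.Iio x ∪ {x}) := by
    intro ξ _
    obtain ⟨x, hx, hle⟩ := hc ξ
    refine Set.mem_biUnion hx ?_
    rcases lt_or_eq_of_le hle with h | h
    · exact Or.inl h
    · exact Or.inr h
  exact Set.countable_univ_iff.1 (h1.mono h2)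

/-! ### the index set -/

/-- codes of names of sets of natural numbers -/
abbrev NR (I : Type) : Type := ℕ → ℕ → Option (Coh I)

/-- the fibres of the index set -/
noncomputable def J : Om → Type :=
  WellFounded.fix (C := fun _ => Type) (wellFounded_lt (α := Om))
    (fun ξ ih => Set (NR (Σ η : {η : Om // η < ξ}, ih η.1 η.2) × Om × ℕ))

theorem J_eq (ξ : Om) : J ξ = Set (NR (Σ η : {η : Om // η < ξ}, J η.1) × Om × ℕ) :=
  WellFounded.fix_eq _ _ _

/-- the index set of the Cohen reals -/
def Idx : Type := Σ ξ : Om, J ξ

/-- the conditions -/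
abbrev PP : Type := Coh Idx

/-- a point of level `ξ` of the index set -/
noncomputable def wI (ξ : Om) : Idx := ⟨ξ, cast (J_eq ξ).symm ∅⟩

theorem wI_fst (ξ : Om) : (wI ξ).1 = ξ := rfl

theorem wI_inj {α β : Om} (h : wI α = wI β) : α = β := congrArg Sigma.fst h

/-- all the coordinates of the code have level less than `ξ` -/
def Below (r : NR Idx) (ξ : Om) : Prop :=
  ∀ n k a, r n k = some a → ∀ i ∈ a.supp, i.1 < ξ

/-- the name of a set of natural numbers with code `r` -/
def nm (r : NR Idx) : Nm PP :=
  .mk {x : ℕ × ℕ // (r x.1 x.2).isSome} (fun x => natN x.1.1) (fun x => (r x.1.1 x.1.2).get x.2)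

/-- a name for an uncountable set -/
noncomputable def wN : Nm PP := uN (fun α : Om => rN (wI α))

/-- an injection of an initial segment into the natural numbers -/
noncomputable def jn (ξ : Om) : {α : Om // α < ξ} → ℕ :=
  (@Countable.exists_injective_nat {α : Om // α < ξ} (Om.iio ξ).to_subtype).choose

theorem jn_inj (ξ : Om) : Function.Injective (jn ξ) :=
  (@Countable.exists_injective_nat {α : Om // α < ξ} (Om.iio ξ).to_subtype).choose_spec

/-- a name for an injection of a countable part of the uncountable set into the numbers -/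
noncomputable def fN (ξ : Om) : Nm PP :=
  uN (fun α : {α : Om // α < ξ} => opN (rN (wI α.1)) (natN (jn ξ α)))

end Pool.Agent.Helper64.EC
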