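import Pool.Agent.Helper64.EC.Nice

/-!
The density arguments.
-/

namespace Pool.Agent.Helper64.EC

open Pool.Agent.Helper73.Sym

/-- a countable predense set of conditions forcing that a pair belongs to `K` -/
noncomputable def dcs (K : Nm PP) (r : NR Idx) (α : Om) : Set PP :=
  (exists_predense {q : PP | Mm (opN (nm r) (rN (wI α))) K q}).choose

theorem dcs_spec (K : Nm PP) (r : NR Idx) (α : Om) :
    dcs K r α ⊆ {q : PP | Mm (opN (nm r) (rN (wI α))) K q} ∧ (dcs K r α).Countable ∧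
      ∀ q ∈ {q : PP | Mm (opN (nm r) (rN (wI α))) K q}, ∃ a ∈ dcs K r α, Coh.Cpt q a :=
  (exists_predense {q : PP | Mm (opN (nm r) (rN (wI α))) K q}).choose_spec

theorem exists_sups (K : Nm PP) (r : NR Idx) (α : Om) :
    ∃ e : ℕ → Idx, ∀ a ∈ dcs K r α, ∀ i ∈ a.supp, ∃ k, e k = i := by
  have hc : (⋃ a ∈ dcs K r α, a.supp).Countable :=
    (dcs_spec K r α).2.1.biUnion fun a _ => (Coh.supp_finite a).countable
  rcases (⋃ a ∈ dcs K r α, a.supp).eq_empty_or_nonempty with h0 | h0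
  · refine ⟨fun _ => wI α, fun a ha i hi => ?_⟩
    have : i ∈ ⋃ a ∈ dcs K r α, a.supp := Set.mem_biUnion ha hi
    rw [h0] at this
    exact this.elim
  · obtain ⟨e, he⟩ := hc.exists_eq_range h0
    refine ⟨e, fun a ha i hi => ?_⟩
    have : i ∈ ⋃ a ∈ dcs K r α, a.supp := Set.mem_biUnion ha hi
    rw [he] at this
    exact this

/-- the coordinates of the predense sets -/
noncomputable def sups (K : Nm PP) (r : NR Idx) (α : Om) : ℕ → Idx := (exists_sups K r α).choose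

/-- the coordinates which are generic over the sections of `K` of smaller level -/
noncomputable def zz (K : Nm PP) (ξ : Om) : Idx := (exists_code ξ (sups K)).choose

theorem zz_fst (K : Nm PP) (ξ : Om) : (zz K ξ).1 = ξ := (exists_code ξ (sups K)).choose_spec.1

theorem zz_inj (K : Nm PP) : Function.Injective (zz K) := fun α β h => by
  rw [← zz_fst K α, h, zz_fst]

theorem zz_not {K : Nm PP} {r : NR Idx} {ξ : Om} (h : Below r ξ) {α : Om} {a : PP}
    (ha : a ∈ dcs K r α) : zz K ξ ∉ a.supp := by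
  intro hi
  obtain ⟨k, hk⟩ := (exists_sups K r α).choose_spec a ha _ hi
  exact (exists_code ξ (sups K)).choose_spec.2 r h α k hk

/-- the name of the generic subset -/
noncomputable def zN (K : Nm PP) : Nm PP :=
  .mk Om (fun α => rN (wI α)) (fun α => Coh.sgl (zz K α) 0 true)

/-- the task for the sections of `K` -/
def pbR (b : Bool) (K x : Nm PP) (q : PP) (C : Set (Nm PP)) : Prop :=
  zN K ∈ C ∧
  ((∃ α, rN (wI α) ∈ C ∧ Mm (opN x (rN (wI α))) K q ∧
      ((b = true ∧ Mm (rN (wI α)) (zN K) q) ∨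
        (b = false ∧ ∀ q' ≤ q, ¬ Mm (rN (wI α)) (zN K) q'))) ∨
  (∃ ξ, fN ξ ∈ C ∧ (∀ α < ξ, rN (wI α) ∈ C) ∧
      ∀ α, ξ ≤ α → ∀ q' ≤ q, ¬ Mm (opN x (rN (wI α))) K q') ∨
  (∃ y ∈ C, Mm y x q ∧ ∀ q' ≤ q, ∀ n, ¬ Eqv y (natN n) q'))

theorem pb_dense (b : Bool) (K x : Nm PP) (p : PP) :
    ∃ q ≤ p, ∃ C : Set (Nm PP), C.Countable ∧ pbR b K x q C := by
  by_cases hsub : FSub x p
  swap
  · -- some element of `x` is not a natural number
    unfold FSub at hsub
    push Not at hsub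
    obtain ⟨i, q, hq, hqi, h⟩ := hsub
    refine ⟨q, hq, {zN K, x.ch i}, (Set.countable_singleton _).insert _, Or.inl rfl,
      Or.inr (Or.inr ⟨x.ch i, Or.inr rfl, Mm.child x i hqi, fun q' hq' n => h q' hq' n⟩)⟩
  obtain ⟨r, hr⟩ := exists_nice x p hsub
  obtain ⟨ξ0, hξ0⟩ := exists_below r
  -- levels above the support of `p`
  obtain ⟨ξ1, hξ1⟩ : ∃ ξ1, ∀ α, ξ1 ≤ α → zz K α ∉ p.supp := by
    have hf : {α | zz K α ∈ p.supp}.Finite :=
      (Coh.supp_finite p).preimage (zz_inj K).injOn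
    obtain ⟨ξ1, h⟩ := Om.bdd hf.countable
    exact ⟨ξ1, fun α hα hm => absurd (h α hm) (not_lt.2 hα)⟩
  by_cases hall : ∀ α, max ξ0 ξ1 ≤ α → ∀ q' ≤ p, ¬ Mm (opN x (rN (wI α))) K q'
  · refine ⟨p, le_rfl, {zN K, fN (max ξ0 ξ1)} ∪ ((fun α => rN (wI α)) '' Set.Iio (max ξ0 ξ1)),
      ((Set.countable_singleton _).insert _).union ((Om.iio _).image _), Or.inl (Or.inl rfl),
      Or.inr (Or.inl ⟨max ξ0 ξ1, Or.inl (Or.inr rfl), fun α hα => Or.inr ⟨α, hα, rfl⟩, hall⟩)⟩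
  push Not at hall
  obtain ⟨α, hα, q', hq', hm⟩ := hall
  have hm' : Mm (opN (nm r) (rN (wI α))) K q' :=
    Mm.congr_left (eqv_opN (hr.mono hq') (Eqv.refl _ _)) hm
  obtain ⟨a, ha, hc⟩ := (dcs_spec K r α).2.2 q' hm'
  have haK : Mm (opN (nm r) (rN (wI α))) K a := (dcs_spec K r α).1 ha
  -- the coordinate of the generic set is free
  have hz1 : zz K α ∉ p.supp := hξ1 α ((le_max_right _ _).trans hα)
  have hz2 : zz K α ∉ a.supp := zz_not (hξ0 α ((le_max_left _ _).trans hα)) ha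
  have hcp : Coh.Cpt p a := fun i n b c h1 h2 => hc i n b c (hq' i n b h1) h2
  have hcs : Coh.Cpt (Coh.uni p a) (Coh.sgl (zz K α) 0 b) := by
    intro i n c d h1 h2
    exfalso
    have h3 := (Coh.le_sgl (p := Coh.sgl (zz K α) 0 b)).1 le_rfl
    have h4 : i = zz K α := by
      by_contra h5
      simp [Coh.sgl, h5] at h2
    subst h4
    simp only [Coh.uni] at h1
    have h5 : p.f (zz K α) n = none := by
      by_contra h6; exact hz1 ⟨n, h6⟩
    have h6 : a.f (zz K α) n = none := by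
      by_contra h6; exact hz2 ⟨n, h6⟩
    rw [h5, h6] at h1
    simp at h1
  set q := Coh.uni (Coh.uni p a) (Coh.sgl (zz K α) 0 b) with hq
  have hqp : q ≤ p := (Coh.uni_le_left _ _).trans (Coh.uni_le_left _ _)
  have hqa : q ≤ a := (Coh.uni_le_left _ _).trans (Coh.uni_le_right hcp)
  have hqs : q ≤ Coh.sgl (zz K α) 0 b := Coh.uni_le_right hcs
  refine ⟨q, hqp, {zN K, rN (wI α)}, (Set.countable_singleton _).insert _, Or.inl rfl,
    Or.inl ⟨α, Or.inr rfl, ?_, ?_⟩⟩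
  · exact Mm.congr_left (eqv_opN (hr.mono hqp).symm (Eqv.refl _ _)) (haK.mono hqa)
  · cases b
    · right
      refine ⟨rfl, fun q'' hq'' hmm => ?_⟩
      obtain ⟨r', hr', β, hβ, he⟩ := hmm q'' le_rfl
      change Om at β
      have h1 : wI α = wI β := rN_inj he
      have h2 := wI_inj h1
      subst h2
      have h3 : r'.f (zz K α) 0 = some true := Coh.le_sgl.1 hβ
      have h4 : r'.f (zz K α) 0 = some false :=
        hr' _ _ _ (hq'' _ _ _ (Coh.le_sgl.1 hqs))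
      rw [h3] at h4
      simp at h4
    · left
      exact ⟨rfl, Mm.child (zN K) (α : Om) hqs⟩

/-- the task for the uncountability of the set `wN` -/
def ucR (h : Nm PP) (q : PP) (C : Set (Nm PP)) : Prop :=
  (∃ α, rN (wI α) ∈ C ∧ ∀ n, ∀ q' ≤ q, ¬ Mm (opN (rN (wI α)) (natN n)) h q') ∨
  (∃ α β n, α ≠ β ∧ rN (wI α) ∈ C ∧ rN (wI β) ∈ C ∧ Mm (opN (rN (wI α)) (natN n)) h q ∧
    Mm (opN (rN (wI β)) (natN n)) h q)

theorem uc_dense (h : Nm PP) (p : PP) :
    ∃ q ≤ p, ∃ C : Set (Nm PP), C.Countable ∧ ucR h q C := by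
  by_cases hall : ∃ α, ∀ n, ∀ q' ≤ p, ¬ Mm (opN (rN (wI α)) (natN n)) h q'
  · obtain ⟨α, hα⟩ := hall
    exact ⟨p, le_rfl, {rN (wI α)}, Set.countable_singleton _, Or.inl ⟨α, rfl, hα⟩⟩
  push Not at hall
  choose n q hq hm using hall
  obtain ⟨k, hk⟩ : ∃ k, ¬ {α : Om | n α = k}.Countable := by
    by_contra hc
    push Not at hc
    apply Om.not_countable
    have : (Set.univ : Set Om) ⊆ ⋃ k, {α : Om | n α = k} := fun α _ =>
      Set.mem_iUnion.2 ⟨n α, rfl⟩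
    exact Set.countable_univ_iff.1 ((Set.countable_iUnion hc).mono this)
  obtain ⟨α, hα, β, hβ, hne, hcp⟩ := exists_cpt hk q
  refine ⟨Coh.uni (q α) (q β), (Coh.uni_le_left _ _).trans (hq α), {rN (wI α), rN (wI β)},
    (Set.countable_singleton _).insert _, Or.inr ⟨α, β, k, hne, Or.inl rfl, Or.inr rfl, ?_, ?_⟩⟩
  · have := (hm α).mono (Coh.uni_le_left (q α) (q β))
    rwa [show n α = k from hα] at this
  · have := (hm β).mono (Coh.uni_le_right hcp)
    rwa [show n β = k from hβ] at this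

/-- the task for the failure of the continuum hypothesis -/
def chR (h : Nm PP) (q : PP) (C : Set (Nm PP)) : Prop :=
  (∃ i, rN i ∈ C ∧ ∀ α, ∀ q' ≤ q, ¬ Mm (opN (rN i) (rN (wI α))) h q') ∨
  (∃ i j α, i ≠ j ∧ rN i ∈ C ∧ rN j ∈ C ∧ rN (wI α) ∈ C ∧ Mm (opN (rN i) (rN (wI α))) h q ∧
    Mm (opN (rN j) (rN (wI α))) h q)

theorem ch_dense (h : Nm PP) (p : PP) :
    ∃ q ≤ p, ∃ C : Set (Nm PP), C.Countable ∧ chR h q C := by
  by_cases hall : ∃ i : Idx, ∀ α, ∀ q' ≤ p, ¬ Mm (opN (rN i) (rN (wI α))) h q'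
  · obtain ⟨i, hi⟩ := hall
    exact ⟨p, le_rfl, {rN i}, Set.countable_singleton _, Or.inl ⟨i, rfl, hi⟩⟩
  push Not at hall
  choose n q hq hm using hall
  obtain ⟨α, hα⟩ := exists_fibre n
  obtain ⟨i, hi, j, hj, hne, hcp⟩ := exists_cpt hα q
  refine ⟨Coh.uni (q i) (q j), (Coh.uni_le_left _ _).trans (hq i), {rN i, rN j, rN (wI α)},
    ((Set.countable_singleton _).insert _).insert _,
    Or.inr ⟨i, j, α, hne, Or.inl rfl, Or.inr (Or.inl rfl), Or.inr (Or.inr rfl), ?_, ?_⟩⟩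
  · have := (hm i).mono (Coh.uni_le_left (q i) (q j))
    rwa [show n i = α from hi] at this
  · have := (hm j).mono (Coh.uni_le_right hcp)
    rwa [show n j = α from hj] at this

end Pool.Agent.Helper64.EC
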