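import Pool.Agent.Helper73.Sym.Ev

/-!
Generic quotients of the class of all names over an arbitrary (uncountable) forcing order.
-/

namespace Pool.Agent.Helper64.EC

open Pool.Agent.Helper73.Sym

section

variable {P : Type} [PartialOrder P]

/-- a countable set of names and a descending sequence of conditions meeting given tasks -/
theorem exists_tasks (p0 : P) (A : ℕ → Nm P) {E : Type} [Countable E]
    (R : E → List (Nm P) → P → (ℕ → Nm P) → Prop)
    (hR : ∀ e l p, ∃ q ≤ p, ∃ y, R e l q y) (V : ℕ → List (Nm P) → Nm P) :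
    ∃ (U : ℕ → Nm P) (g : ℕ → P), g 0 = p0 ∧ Antitone g ∧ (∀ n, ∃ m, U m = A n) ∧
      (∀ e (l : List ℕ), ∃ n y, R e (l.map U) (g n) y ∧ ∀ k, ∃ m, U m = y k) ∧
      ∀ b (l : List ℕ), ∃ m, U m = V b (l.map U) := by
  classical
  choose Q hQ Y hY using hR
  obtain ⟨U', h0, hW, _⟩ := exists_closed (α := Nm P × P) (β := (E × ℕ) ⊕ ℕ)
    (fun b L => match b with
      | .inl x => (Y x.1 (L.tail.map Prod.fst) (L.headD (A 0, p0)).2 x.2,
          Q x.1 (L.tail.map Prod.fst) (L.headD (A 0, p0)).2)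
      | .inr b => (V b (L.map Prod.fst), p0)) (fun n => (A n, p0))
  obtain ⟨m0, hm0⟩ := h0 0
  let C : Type := {p : P // ∃ n, (U' n).2 = p}
  have hCc : Countable C := by
    have : Function.Surjective (fun n : ℕ => (⟨(U' n).2, n, rfl⟩ : C)) := by
      rintro ⟨p, n, rfl⟩
      exact ⟨n, rfl⟩
    exact this.countable
  obtain ⟨t, ht⟩ := exists_surjective_nat (Option (E × List ℕ))
  let S : E × List ℕ → Set C := fun x =>
    {p | ∃ y, R x.1 (x.2.map fun n => (U' n).1) p.1 y ∧ ∀ k, ∃ m, (U' m).1 = y k}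
  have hS : ∀ x (p : C), ∃ q ≤ p, q ∈ S x := by
    rintro ⟨e, l⟩ ⟨p, j, hj⟩
    have key : ∀ k, ∃ m, U' m = (Y e (l.map fun n => (U' n).1) p k,
        Q e (l.map fun n => (U' n).1) p) := by
      intro k
      obtain ⟨m, hm⟩ := hW (.inl (e, k)) (j :: l)
      refine ⟨m, hm.trans ?_⟩
      simp only [List.map_cons, List.tail_cons, List.headD_cons, List.map_map]
      rw [hj]
      rfl
    obtain ⟨m, hm⟩ := key 0
    refine ⟨⟨Q e (l.map fun n => (U' n).1) p, m, by rw [hm]⟩, hQ _ _ _, ?_⟩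
    refine ⟨Y e (l.map fun n => (U' n).1) p, hY _ _ _, fun k => ?_⟩
    obtain ⟨m, hm⟩ := key k
    exact ⟨m, by rw [hm]⟩
  obtain ⟨g, hg0, hga, hg⟩ := exists_generic_seq (P := C) ⟨p0, m0, by rw [hm0]⟩
    (fun n => match t n with
      | none => Set.univ
      | some x => S x) (fun n p => by
        rcases h : t n with _ | x
        · exact ⟨p, le_rfl, trivial⟩
        · exact hS x p)
  refine ⟨fun n => (U' n).1, fun n => (g n).1, ?_, fun a b hab => hga hab, ?_, ?_, ?_⟩
  · show (g 0).1 = p0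
    rw [hg0]
  · intro n
    obtain ⟨m, hm⟩ := h0 n
    refine ⟨m, ?_⟩
    show (U' m).1 = _
    rw [hm]
  · intro e l
    obtain ⟨n, hn⟩ := ht (some (e, l))
    have h1 := hg n
    rw [hn] at h1
    obtain ⟨y, hy, h2⟩ := h1
    exact ⟨n + 1, y, hy, h2⟩
  · intro b l
    obtain ⟨m, hm⟩ := hW (.inr b) l
    refine ⟨m, ?_⟩
    show (U' m).1 = _
    rw [hm]
    simp only [List.map_map]
    rfl

end

section

variable {P G : Type} [PartialOrder P] [OrderTop P] [Group G] [MulAction G P] [SymSys P G]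

/-- existence of generic models closed under pairing, containing given names, meeting given
tasks; all names are symmetric -/
theorem exists_gen_tasks (hHS : ∀ x : Nm P, HS G x) (p0 : P) {K : Type} [Countable K]
    (A : K → Nm P) {E : Type} [Countable E]
    (R : E → List (Nm P) → P → (ℕ → Nm P) → Prop)
    (hR : ∀ e l p, ∃ q ≤ p, ∃ y, R e l q y) :
    ∃ D : Gen P G, D.g 0 = p0 ∧ D.Upc ∧ (∀ k, D.Has (A k)) ∧
      ∀ e (l : List (Nm P)), (∀ x ∈ l, D.Has x) →
        ∃ n y, R e l (D.g n) y ∧ ∀ k, D.Has (y k) := by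
  classical
  obtain ⟨e, he⟩ := exists_surjective_nat (Option K)
  let d : Nm P := natN 0
  -- the names to start with
  let A0 : ℕ → Nm P := fun n => if n % 3 = 0 then (match e (n / 3) with
    | none => natN 0
    | some k => A k) else if n % 3 = 1 then natN (n / 3) else omN
  -- the tasks
  let Task := E ⊕ (Fml ⊕ (Fml ⊕ Unit))
  let R' : Task → List (Nm P) → P → (ℕ → Nm P) → Prop := fun t l p y => match t with
    | .inl e => R e l p y
    | .inr (.inl φ) => Frc G φ (fun n => l.getD n d) p ∨ Frc G φ.not (fun n => l.getD n d) p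
    | .inr (.inr (.inl φ)) => Frc G (.all φ) (fun n => l.getD n d) p ∨
        Frc G φ.not (cons (y 0) (fun n => l.getD n d)) p
    | .inr (.inr (.inr _)) => (∀ q ≤ p, ¬ Mm (l.getD 0 d) (l.getD 1 d) q) ∨
        ∃ i : (l.getD 1 d).Ix, p ≤ (l.getD 1 d).wt i ∧ Eqv (l.getD 0 d) ((l.getD 1 d).ch i) p
  have hR' : ∀ t l p, ∃ q ≤ p, ∃ y, R' t l q y := by
    rintro (e | φ | φ | _) l p
    · exact hR e l p
    · by_cases h : Frc G φ (fun n => l.getD n d) p
      · exact ⟨p, le_rfl, fun _ => d, Or.inl h⟩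
      · obtain ⟨q, hq, h1⟩ := exists_frc_not h
        exact ⟨q, hq, fun _ => d, Or.inr h1⟩
    · by_cases h : Frc G (.all φ) (fun n => l.getD n d) p
      · exact ⟨p, le_rfl, fun _ => d, Or.inl h⟩
      · rw [frc_all] at h
        push Not at h
        obtain ⟨x, _, h1⟩ := h
        obtain ⟨q, hq, h2⟩ := exists_frc_not h1
        exact ⟨q, hq, fun _ => x, Or.inr h2⟩
    · by_cases h : ∀ q ≤ p, ¬ Mm (l.getD 0 d) (l.getD 1 d) q
      · exact ⟨p, le_rfl, fun _ => d, Or.inl h⟩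
      · push Not at h
        obtain ⟨q, hq, h1⟩ := h
        obtain ⟨r, hr, i, hi, h2⟩ := h1 q le_rfl
        exact ⟨r, hr.trans hq, fun _ => d, Or.inr ⟨i, hi, h2⟩⟩
  obtain ⟨U, g, hg0, hga, hA, hT, hV⟩ := exists_tasks p0 A0 R' hR'
    (fun _ l => upN (l.getD 0 d) (l.getD 1 d))
  have hlist : ∀ (N : ℕ) (v : ℕ → ℕ), ∃ l : List ℕ, ∀ n < N, (l.map U).getD n d = U (v n) := by
    intro N v
    refine ⟨(List.range N).map v, fun n hn => ?_⟩
    rw [List.getD_eq_getElem?_getD, List.getElem?_map, List.getElem?_map,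
      List.getElem?_range hn]
    rfl
  have hnat : ∀ n, ∃ m, U m = natN n := by
    intro n
    obtain ⟨m, hm⟩ := hA (3 * n + 1)
    refine ⟨m, hm.trans ?_⟩
    have h1 : (3 * n + 1) % 3 = 1 := by omega
    have h2 : (3 * n + 1) / 3 = n := by omega
    simp [A0, h1, h2]
  refine ⟨⟨U, fun n => hHS _, g, hga, ?_, ?_, hnat, ?_, ?_⟩, hg0, ?_, ?_, ?_⟩
  · intro φ v
    obtain ⟨l, hl⟩ := hlist φ.bd v
    obtain ⟨n, y, hn, _⟩ := hT (.inr (.inl φ)) l
    refine ⟨n, ?_⟩
    rcases hn with hn | hn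
    · exact Or.inl ((frc_depends hl).1 hn)
    · right
      refine (frc_depends (fun k hk => hl k ?_)).1 hn
      simpa [Fml.not, Fml.bd] using hk
  · intro φ v
    obtain ⟨l, hl⟩ := hlist φ.bd v
    obtain ⟨n, y, hn, hy⟩ := hT (.inr (.inr (.inl φ))) l
    refine ⟨n, ?_⟩
    rcases hn with hn | hn
    · exact Or.inl ((frc_depends (φ := .all φ) hl).1 hn)
    · right
      obtain ⟨m, hm⟩ := hy 0
      refine ⟨m, (frc_depends ?_).1 hn⟩
      intro k hk
      cases k with
      | zero => exact hm.symm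
      | succ k =>
        refine hl k ?_
        simp only [Fml.not, Fml.bd] at hk
        omega
  · obtain ⟨m, hm⟩ := hA 2
    exact ⟨m, by simpa [A0] using hm⟩
  · intro m k
    obtain ⟨n, y, hn, _⟩ := hT (.inr (.inr (.inr ()))) [k, m]
    exact ⟨n, hn⟩
  · rintro _ _ ⟨i, rfl⟩ ⟨j, rfl⟩
    obtain ⟨m, hm⟩ := hV 0 [i, j]
    exact ⟨m, hm⟩
  · intro k
    obtain ⟨n, hn⟩ := he (some k)
    obtain ⟨m, hm⟩ := hA (3 * n)
    refine ⟨m, hm.trans ?_⟩
    have h2 : 3 * n / 3 = n := by omega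
    simp [A0, h2, hn]
  · intro e l hl
    have key : ∀ l : List (Nm P), (∀ x ∈ l, ∃ k, U k = x) → ∃ l' : List ℕ, l'.map U = l := by
      intro l
      induction l with
      | nil => exact fun _ => ⟨[], rfl⟩
      | cons a l ih =>
        intro h
        obtain ⟨l', hl'⟩ := ih (fun x hx => h x (List.mem_cons_of_mem _ hx))
        obtain ⟨k, hk⟩ := h a List.mem_cons_self
        exact ⟨k :: l', by rw [List.map_cons, hl', hk]⟩
    obtain ⟨l', rfl⟩ := key l hl
    obtain ⟨n, y, hn, hy⟩ := hT (.inl e) l'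
    exact ⟨n, y, hn, hy⟩

end

end Pool.Agent.Helper64.EC
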