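import Pool.Agent.Helper64.EC.Dens
import Pool.Agent.Helper73.Sym.Ctb

/-!
The generic model: the principle on sections of sets of pairs, and the failure of the continuum
hypothesis.
-/

namespace Pool.Agent.Helper64.EC

open Pool.Agent.Helper73.Sym

section

variable {M : Type*} [Membership M M] [StdZF M]

/-- the section of `K` at `r` -/
noncomputable def sec (W K r : M) : M := sep W (fun x => op r x ∈ K)

theorem mem_sec (W K r x : M) : x ∈ sec W K r ↔ x ∈ W ∧ op r x ∈ K := by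
  rw [sec, mem_sep]

/-- the principle: every set of pairs of reals and elements of `W` has a set splitting all its
uncountable sections -/
def PB (W : M) : Prop :=
  ∀ K : M, ∃ Z : M, ∀ r : M, Sub r om →
    (Ctb (sec W K r) ∨ ∃ x, x ∈ W ∧ op r x ∈ K ∧ x ∈ Z) ∧
    (Ctb (sec W K r) ∨ ∃ x, x ∈ W ∧ op r x ∈ K ∧ ¬ x ∈ Z)

end

section

variable {P G : Type} [PartialOrder P] [OrderTop P] [Group G] [MulAction G P] [SymSys P G]
  {D : Gen P G}

theorem child_of_mem {x : Nm P} {z : D.M} (hx : D.Has x) (hz : z ∈ D.ev x) :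
    ∃ y, D.Has y ∧ D.ev y = z ∧ ∃ n, ∃ i : x.Ix, D.g n ≤ x.wt i ∧ Eqv y (x.ch i) (D.g n) := by
  obtain ⟨k, hk⟩ := D.el_surj z
  obtain ⟨m, hm, hm'⟩ := hx.ev
  rw [← hk, hm'] at hz
  obtain ⟨n, i, hi, he⟩ := D.exists_child hm hz
  exact ⟨D.U k, Gen.has_U k, by rw [Gen.ev_U, hk], n, i, hi, he⟩

/-- a pair of elements of the model belongs to a set iff some condition forces it -/
theorem op_mem_ev (hU : D.Upc) {x y K : Nm P} (hx : D.Has x) (hy : D.Has y) (hK : D.Has K) :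
    op (D.ev x) (D.ev y) ∈ D.ev K ↔ ∃ n, Mm (opN x y) K (D.g n) := by
  rw [← Gen.ev_opN hU hx hy, Gen.ev_mem (hU.opN hx hy) hK]

theorem not_op_mem_ev (hU : D.Upc) {x y K : Nm P} (hx : D.Has x) (hy : D.Has y)
    (hK : D.Has K) {m : ℕ} (h : ∀ q ≤ D.g m, ¬ Mm (opN x y) K q) :
    ¬ op (D.ev x) (D.ev y) ∈ D.ev K := by
  rw [op_mem_ev hU hx hy hK]
  rintro ⟨n, hn⟩
  exact h _ (D.anti (le_max_left m n)) (hn.mono (D.anti (le_max_right m n)))

end

section

variable {D : Gen PP Tr}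

theorem ev_rN_inj' {i j : Idx} (hi : D.Has (rN i)) (hj : D.Has (rN j))
    (h : D.ev (rN i) = D.ev (rN j)) : i = j := by
  rw [Gen.ev_eq hi hj] at h
  obtain ⟨n, hn⟩ := h
  exact rN_inj hn

theorem ev_rN_mem (hW : D.Has wN) {α : Om} (h : D.Has (rN (wI α))) :
    D.ev (rN (wI α)) ∈ D.ev wN := by
  rw [Gen.ev_mem h hW]
  exact ⟨0, mm_uN (fun α : Om => rN (wI α)) α _⟩

theorem ev_rN_sub {i : Idx} (h : D.Has (rN i)) : Sub (D.ev (rN i)) om := by
  intro z hz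
  obtain ⟨n, _, rfl⟩ := (Gen.mem_ev_rN h z).1 hz
  exact nat_mem_om n

/-- the set `wN` is uncountable -/
theorem not_ctb (hU : D.Upc) (hW : D.Has wN)
    (huc : ∀ h, D.Has h → ∃ n C, ucR h (D.g n) C ∧ ∀ y ∈ C, D.Has y) : ¬ Ctb (D.ev wN) := by
  rintro ⟨f, hf, hinj⟩
  obtain ⟨h, hh, rfl⟩ := Gen.ev_surj f
  obtain ⟨n, C, hR, hC⟩ := huc h hh
  rcases hR with ⟨α, hα, hn⟩ | ⟨α, β, k, hne, hα, hβ, h1, h2⟩
  · have ha := hC _ hα
    have hm := ev_rN_mem hW ha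
    obtain ⟨k, hk⟩ := (mem_om _).1 (ap_mem hf hm)
    have h3 := ap_spec hf hm
    rw [hk, ← Gen.ev_natN] at h3
    exact not_op_mem_ev hU ha (Gen.has_nat k) hh (hn k) h3
  · have ha := hC _ hα
    have hb := hC _ hβ
    have h3 := (op_mem_ev hU ha (Gen.has_nat k) hh).2 ⟨n, h1⟩
    have h4 := (op_mem_ev hU hb (Gen.has_nat k) hh).2 ⟨n, h2⟩
    have h5 : ap (D.ev h) (D.ev (rN (wI α))) = ap (D.ev h) (D.ev (rN (wI β))) := by
      rw [ap_eq hf h3, ap_eq hf h4]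
    have h6 := hinj _ _ (ev_rN_mem hW ha) (ev_rN_mem hW hb) h5
    exact hne (wI_inj (ev_rN_inj' ha hb h6))

/-- there is no injection of the set of reals into the set `wN` -/
theorem not_inj (hU : D.Upc) (hW : D.Has wN)
    (hch : ∀ h, D.Has h → ∃ n C, chR h (D.g n) C ∧ ∀ y ∈ C, D.Has y) (f : D.M)
    (hf : Fn f (pw om) (D.ev wN))
    (hinj : ∀ a b : D.M, a ∈ (pw om : D.M) → b ∈ (pw om : D.M) → ap f a = ap f b → a = b) :
    False := by
  obtain ⟨h, hh, rfl⟩ := Gen.ev_surj f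
  obtain ⟨n, C, hR, hC⟩ := hch h hh
  rcases hR with ⟨i, hi, hn⟩ | ⟨i, j, α, hne, hi, hj, hα, h1, h2⟩
  · have ha := hC _ hi
    have hm : D.ev (rN i) ∈ pw om := (mem_pw _ _).2 (ev_rN_sub ha)
    have hv := ap_mem hf hm
    have h3 := ap_spec hf hm
    obtain ⟨y, hy, hye, m, α, _, he⟩ := child_of_mem hW hv
    change Om at α
    rw [← hye] at h3
    obtain ⟨l, hl⟩ := (op_mem_ev hU ha hy hh).1 h3
    have h4 : Mm (opN (rN i) (rN (wI α))) h (D.g (max n (max m l))) := by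
      refine Mm.congr_left (eqv_opN (Eqv.refl _ _) (he.mono (D.anti ?_))) (hl.mono (D.anti ?_))
      · exact (le_max_left m l).trans (le_max_right _ _)
      · exact (le_max_right m l).trans (le_max_right _ _)
    exact hn α _ (D.anti (le_max_left _ _)) h4
  · have ha := hC _ hi
    have hb := hC _ hj
    have hw := hC _ hα
    have h3 := (op_mem_ev hU ha hw hh).2 ⟨n, h1⟩
    have h4 := (op_mem_ev hU hb hw hh).2 ⟨n, h2⟩
    have h5 : ap (D.ev h) (D.ev (rN i)) = ap (D.ev h) (D.ev (rN j)) := by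
      rw [ap_eq hf h3, ap_eq hf h4]
    exact hne (ev_rN_inj' ha hb (hinj _ _ ((mem_pw _ _).2 (ev_rN_sub ha))
      ((mem_pw _ _).2 (ev_rN_sub hb)) h5))

/-- the sections which are bounded are countable -/
theorem ctb_sec (hU : D.Upc) (hW : D.Has wN) {K r : Nm PP} (hK : D.Has K) (hr : D.Has r)
    {ξ : Om} {m : ℕ} (hf : D.Has (fN ξ)) (hα : ∀ α < ξ, D.Has (rN (wI α)))
    (hn : ∀ α, ξ ≤ α → ∀ q ≤ D.g m, ¬ Mm (opN r (rN (wI α))) K q) :
    Ctb (sec (D.ev wN) (D.ev K) (D.ev r)) := by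
  have hmf : ∀ z, z ∈ D.ev (fN ξ) ↔
      ∃ α : {α : Om // α < ξ}, z = op (D.ev (rN (wI α.1))) (nat (jn ξ α)) := by
    intro z
    rw [fN, Gen.mem_ev_uN hf (fun α => hU.opN (hα α.1 α.2) (Gen.has_nat _))]
    refine exists_congr fun α => ?_
    rw [Gen.ev_opN hU (hα α.1 α.2) (Gen.has_nat _), Gen.ev_natN]
  have hs : ∀ x, x ∈ sec (D.ev wN) (D.ev K) (D.ev r) →
      ∃ α : {α : Om // α < ξ}, x = D.ev (rN (wI α.1)) := by
    intro x hx
    rw [mem_sec] at hx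
    obtain ⟨y, hy, hye, l, α, _, he⟩ := child_of_mem hW hx.1
    change Om at α
    have h3 := hx.2
    rw [← hye] at h3
    obtain ⟨k, hk⟩ := (op_mem_ev hU hr hy hK).1 h3
    have h4 : Mm (opN r (rN (wI α))) K (D.g (max m (max l k))) := by
      refine Mm.congr_left (eqv_opN (Eqv.refl _ _) (he.mono (D.anti ?_))) (hk.mono (D.anti ?_))
      · exact (le_max_left l k).trans (le_max_right _ _)
      · exact (le_max_right l k).trans (le_max_right _ _)
    have hlt : α < ξ := by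
      by_contra hc
      exact hn α (not_lt.1 hc) _ (D.anti (le_max_left _ _)) h4
    refine ⟨⟨α, hlt⟩, ?_⟩
    rw [← hye, Gen.ev_eq hy (hα α hlt)]
    exact ⟨l, he⟩
  set s := sec (D.ev wN) (D.ev K) (D.ev r) with hs'
  set g : D.M := rel s om (fun a b => op a b ∈ D.ev (fN ξ)) with hg
  have hgf : Fn g s om := by
    refine rel_fn fun a ha => ?_
    obtain ⟨α, rfl⟩ := hs a ha
    refine ⟨nat (jn ξ α), nat_mem_om _, (hmf _).2 ⟨α, rfl⟩, fun c _ hc => ?_⟩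
    obtain ⟨β, hβ⟩ := (hmf _).1 hc
    rw [op_inj] at hβ
    have h1 : α = β := Subtype.ext (wI_inj (ev_rN_inj' (hα α.1 α.2) (hα β.1 β.2) hβ.1))
    rw [hβ.2, h1]
  refine ⟨g, hgf, fun a b ha hb hab => ?_⟩
  obtain ⟨_, _, h1⟩ := (op_mem_rel _ _ _ a (ap g a)).1 (ap_spec hgf ha)
  obtain ⟨_, _, h2⟩ := (op_mem_rel _ _ _ b (ap g b)).1 (ap_spec hgf hb)
  obtain ⟨α, h3⟩ := (hmf _).1 h1
  obtain ⟨β, h4⟩ := (hmf _).1 h2
  rw [op_inj] at h3 h4
  have h5 : jn ξ α = jn ξ β := by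
    rw [← nat_inj (M := D.M), ← h3.2, ← h4.2, hab]
  have h6 := jn_inj ξ h5
  rw [h3.1, h4.1, h6]

theorem pb (hU : D.Upc) (hW : D.Has wN)
    (hpb : ∀ b K x, D.Has K → D.Has x → ∃ n C, pbR b K x (D.g n) C ∧ ∀ y ∈ C, D.Has y) :
    PB (D.ev wN) := by
  intro K
  obtain ⟨K, hK, rfl⟩ := Gen.ev_surj K
  have hZ : D.Has (zN K) := by
    obtain ⟨n, C, hR, hC⟩ := hpb true K K hK hK
    exact hC _ hR.1
  refine ⟨D.ev (zN K), fun r hr => ?_⟩
  obtain ⟨r, hr', rfl⟩ := Gen.ev_surj r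
  -- the third case is impossible
  have h3 : ∀ (n : ℕ) (y : Nm PP), D.Has y → Mm y r (D.g n) →
      (∀ q' ≤ D.g n, ∀ k, ¬ Eqv y (natN k) q') → False := by
    intro n y hy hm hn
    have h1 : D.ev y ∈ D.ev r := (Gen.ev_mem hy hr').2 ⟨n, hm⟩
    obtain ⟨k, hk⟩ := (mem_om _).1 (hr _ h1)
    rw [← Gen.ev_natN, Gen.ev_eq hy (Gen.has_nat k)] at hk
    obtain ⟨l, hl⟩ := hk
    exact hn _ (D.anti (le_max_left n l)) k (hl.mono (D.anti (le_max_right n l)))
  constructor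
  · obtain ⟨n, C, ⟨_, hR⟩, hC⟩ := hpb true K r hK hr'
    rcases hR with ⟨α, hα, h1, h2⟩ | ⟨ξ, hξ, hα, h1⟩ | ⟨y, hy, hm, hn⟩
    · right
      have ha := hC _ hα
      refine ⟨D.ev (rN (wI α)), ev_rN_mem hW ha, (op_mem_ev hU hr' ha hK).2 ⟨n, h1⟩, ?_⟩
      rcases h2 with ⟨_, h2⟩ | ⟨h2, _⟩
      · exact (Gen.ev_mem ha hZ).2 ⟨n, h2⟩
      · simp at h2
    · left
      exact ctb_sec hU hW hK hr' (hC _ hξ) (fun α h => hC _ (hα α h)) h1
    · exact (h3 n y (hC _ hy) hm hn).elim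
  · obtain ⟨n, C, ⟨_, hR⟩, hC⟩ := hpb false K r hK hr'
    rcases hR with ⟨α, hα, h1, h2⟩ | ⟨ξ, hξ, hα, h1⟩ | ⟨y, hy, hm, hn⟩
    · right
      have ha := hC _ hα
      refine ⟨D.ev (rN (wI α)), ev_rN_mem hW ha, (op_mem_ev hU hr' ha hK).2 ⟨n, h1⟩, ?_⟩
      rcases h2 with ⟨h2, _⟩ | ⟨_, h2⟩
      · simp at h2
      · rw [Gen.ev_mem ha hZ]
        rintro ⟨k, hk⟩
        exact h2 _ (D.anti (le_max_left n k)) (hk.mono (D.anti (le_max_right n k)))
    · left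
      exact ctb_sec hU hW hK hr' (hC _ hξ) (fun α h => hC _ (hα α h)) h1
    · exact (h3 n y (hC _ hy) hm hn).elim

end

/-- there is a model of ZFC in which the principle holds and the continuum hypothesis fails -/
theorem exists_model : ∃ (M : Type) (_ : Membership M M) (_ : StdZF M), AC M ∧
    ∃ W : M, ¬ Ctb W ∧ PB W ∧ ∀ f : M, Fn f (pw om) W →
      (∀ a b : M, a ∈ (pw om : M) → b ∈ (pw om : M) → ap f a = ap f b → a = b) → False := by
  obtain ⟨R, hR, hAC⟩ := exists_ac_tasks PP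
  obtain ⟨D, _, hU, hA, hT⟩ := exists_gen_sets (G := Tr) hs_all (⊤ : PP) (K := Unit)
    (fun _ => wN) (E := ℕ ⊕ (Bool ⊕ Bool))
    (fun e l q C => match e with
      | .inl e => R e l q C
      | .inr (.inl b) => pbR b (l.getD 0 (natN 0)) (l.getD 1 (natN 0)) q C
      | .inr (.inr true) => ucR (l.getD 0 (natN 0)) q C
      | .inr (.inr false) => chR (l.getD 0 (natN 0)) q C) (fun e l p => by
        rcases e with e | b | b
        · exact hR e l p
        · exact pb_dense b _ _ p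
        · cases b
          · exact ch_dense _ p
          · exact uc_dense _ p)
  have hW : D.Has wN := hA ()
  refine ⟨D.M, inferInstance, inferInstance, ?_, D.ev wN, ?_, ?_, ?_⟩
  · exact hAC Tr D fun e l hl => hT (.inl e) l hl
  · refine not_ctb hU hW fun h hh => ?_
    obtain ⟨n, C, h1, h2⟩ := hT (.inr (.inr true)) [h] (by simpa using hh)
    exact ⟨n, C, h1, h2⟩
  · refine pb hU hW fun b K x hK hx => ?_
    obtain ⟨n, C, h1, h2⟩ := hT (.inr (.inl b)) [K, x] (by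
      intro y hy
      simp only [List.mem_cons, List.not_mem_nil, or_false] at hy
      rcases hy with rfl | rfl
      · exact hK
      · exact hx)
    exact ⟨n, C, h1, h2⟩
  · refine fun f hf hinj => not_inj hU hW (fun h hh => ?_) f hf hinj
    obtain ⟨n, C, h1, h2⟩ := hT (.inr (.inr false)) [h] (by simpa using hh)
    exact ⟨n, C, h1, h2⟩

end Pool.Agent.Helper64.EC
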