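import Pool.Agent.Helper64.EC.Gen2
import Pool.Agent.Helper32.EC.Fil
import Pool.Agent.Helper25.EC.Ccc
import Pool.Agent.Helper12.EC.Ac
import Pool.Agent.Helper25.EC.Cho

/-!
Nice names of sets of natural numbers, and the generic sets of the model.
-/

namespace Pool.Agent.Helper64.EC

open Pool.Agent.Helper73.Sym

/-- tasks with countable sets of names as answers -/
theorem exists_gen_sets {P G : Type} [PartialOrder P] [OrderTop P] [Group G] [MulAction G P]
    [SymSys P G] (hHS : ∀ x : Nm P, HS G x) (p0 : P) {K : Type} [Countable K]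
    (A : K → Nm P) {E : Type} [Countable E]
    (R : E → List (Nm P) → P → Set (Nm P) → Prop)
    (hR : ∀ e l p, ∃ q ≤ p, ∃ C : Set (Nm P), C.Countable ∧ R e l q C) :
    ∃ D : Gen P G, D.g 0 = p0 ∧ D.Upc ∧ (∀ k, D.Has (A k)) ∧
      ∀ e (l : List (Nm P)), (∀ x ∈ l, D.Has x) →
        ∃ n C, R e l (D.g n) C ∧ ∀ x ∈ C, D.Has x := by
  obtain ⟨D, h1, h2, h3, h4⟩ := exists_gen_tasks hHS p0 A
    (fun e l q y => ∃ C ⊆ Set.range y, R e l q C) (fun e l p => by
      obtain ⟨q, hq, C, hC, h⟩ := hR e l p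
      refine ⟨q, hq, ?_⟩
      rcases C.eq_empty_or_nonempty with rfl | hne
      · exact ⟨fun _ => natN 0, ∅, Set.empty_subset _, h⟩
      · obtain ⟨y, hy⟩ := hC.exists_eq_range hne
        exact ⟨y, C, hy.le, h⟩)
  refine ⟨D, h1, h2, h3, fun e l hl => ?_⟩
  obtain ⟨n, y, ⟨C, hC, h⟩, hy⟩ := h4 e l hl
  refine ⟨n, C, h, fun x hx => ?_⟩
  obtain ⟨k, rfl⟩ := hC hx
  exact hy k

section

variable {I : Type}

theorem natN_inj {n m : ℕ} {p : Coh I} (h : Eqv (natN n : Nm (Coh I)) (natN m) p) : n = m := by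
  obtain ⟨D, h1, _⟩ := exists_gen_tasks (G := Tr) hs_all p (K := Empty) (fun k => k.elim)
    (E := Empty) (fun e => e.elim) (fun e => e.elim)
  have h2 : D.ev (natN n) = D.ev (natN m) := by
    rw [Gen.ev_eq (Gen.has_nat n) (Gen.has_nat m)]
    exact ⟨0, by rw [h1]; exact h⟩
  rw [Gen.ev_natN, Gen.ev_natN, nat_inj] at h2
  exact h2

theorem mm_rN {i : I} {n : ℕ} {p : Coh I} (h : Mm (natN n) (rN i) p) :
    ∃ q ≤ p, q.f i n = some true := by
  obtain ⟨q, hq, k, hk, he⟩ := h p le_rfl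
  change ℕ at k
  have : n = k := natN_inj he
  subst this
  exact ⟨q, hq, Coh.le_sgl.1 hk⟩

theorem rN_inj {i j : I} {p : Coh I} (h : Eqv (rN i) (rN j) p) : i = j := by
  by_contra hij
  obtain ⟨q, hq, n, h1, h2⟩ := Coh.dense_ne i j hij p
  have h3 : Mm (natN n) (rN i) q := Mm.child (rN i) (n : ℕ) (Coh.le_sgl.2 h1)
  obtain ⟨r, hr, h4⟩ := mm_rN (Mm.congr_right (h.mono hq) h3)
  have h5 := hr j n _ h2
  rw [h4] at h5
  simp at h5

/-- `p` forces that the elements of `x` are natural numbers -/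
def FSub (x : Nm (Coh I)) (p : Coh I) : Prop :=
  ∀ i : x.Ix, ∀ q ≤ p, q ≤ x.wt i → ∃ r ≤ q, ∃ n, Eqv (x.ch i) (natN n) r

theorem exists_nice (x : Nm PP) (p : PP) (h : FSub x p) : ∃ r : NR Idx, Eqv x (nm r) p := by
  choose A hA hAc hAp using fun n => exists_predense {q : PP | Mm (natN n) x q}
  have henum : ∀ n, ∃ e : ℕ → Option PP, ∀ a, a ∈ A n ↔ ∃ k, e k = some a := by
    intro n
    rcases (A n).eq_empty_or_nonempty with h0 | h0
    · exact ⟨fun _ => none, fun a => by simp [h0]⟩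
    · obtain ⟨e, he⟩ := (hAc n).exists_eq_range h0
      refine ⟨fun k => some (e k), fun a => ?_⟩
      rw [he]
      simp
  choose r hr using henum
  refine ⟨r, ?_⟩
  rw [eqv_iff]
  constructor
  · intro i q hq hqi
    obtain ⟨q1, hq1, n, hn⟩ := h i q hq hqi
    have h1 : Mm (natN n) x q1 := Mm.congr_left hn (Mm.child x i (hq1.trans hqi))
    obtain ⟨a, ha, hc⟩ := hAp n q1 h1
    obtain ⟨k, hk⟩ := (hr n a).1 ha
    refine ⟨Coh.uni q1 a, (Coh.uni_le_left _ _).trans hq1, ⟨(n, k), by simp [hk]⟩, ?_,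
      hn.mono (Coh.uni_le_left _ _)⟩
    show Coh.uni q1 a ≤ (r n k).get _
    simp only [hk, Option.get_some]
    exact Coh.uni_le_right hc
  · rintro ⟨⟨n, k⟩, hk⟩ q hq hqk
    obtain ⟨a, ha⟩ := Option.isSome_iff_exists.1 hk
    change r n k = some a at ha
    change q ≤ (r n k).get _ at hqk
    simp only [ha, Option.get_some] at hqk
    have h1 : Mm (natN n) x a := hA n ((hr n a).2 ⟨k, ha⟩)
    obtain ⟨r', hr', i, hi, he⟩ := h1 q hqk
    exact ⟨r', hr', i, hi, he.symm⟩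

theorem exists_below (r : NR Idx) : ∃ ξ, ∀ η, ξ ≤ η → Below r η := by
  have hc : {α : Om | ∃ n k a, r n k = some a ∧ ∃ i ∈ a.supp, i.1 = α}.Countable := by
    have h1 : {α : Om | ∃ n k a, r n k = some a ∧ ∃ i ∈ a.supp, i.1 = α} ⊆
        ⋃ n, ⋃ k, (fun i : Idx => i.1) '' ((r n k).elim ∅ Coh.supp) := by
      rintro α ⟨n, k, a, ha, i, hi, rfl⟩
      refine Set.mem_iUnion.2 ⟨n, Set.mem_iUnion.2 ⟨k, i, ?_, rfl⟩⟩
      rw [ha]; exact hi
    refine Set.Countable.mono h1 ?_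
    refine Set.countable_iUnion fun n => Set.countable_iUnion fun k => ?_
    rcases r n k with _ | a
    · simp
    · exact ((Coh.supp_finite a).image _).countable
  obtain ⟨ξ, hξ⟩ := Om.bdd hc
  refine ⟨ξ, fun η hη n k a ha i hi => (hξ _ ⟨n, k, a, ha, i, hi, rfl⟩).trans_le hη⟩

end

end Pool.Agent.Helper64.EC
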