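import Pool.Agent.Helper73.Off.Basic

/-!
Official definitions: ZFC, the continuum hypothesis, topological spaces and the assertion `(∗)`
inside a structure `(M, ∈)`, in relational form.
-/

namespace Pool.Agent.Helper64.EC

open Pool.Agent.Helper73.Sym (IsZF)
open Pool.Agent.Helper73.Off

/-- `(M, ∈)` is a model of ZFC: ZF and the axiom of choice in the form that for every set of
nonempty pairwise disjoint sets there is a set which meets each of them in exactly one element -/
class IsZFC (M : Type*) [Membership M M] : Prop extends IsZF M where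
  choice : ∀ x : M, (∀ y : M, y ∈ x → ∃ z : M, z ∈ y) →
    (∀ y y' : M, y ∈ x → y' ∈ x → ∀ z : M, z ∈ y → z ∈ y' → y = y') →
    ∃ c : M, ∀ y : M, y ∈ x → ∃ z : M, (z ∈ y ∧ z ∈ c) ∧ ∀ z' : M, z' ∈ y → z' ∈ c → z' = z

variable {M : Type*} [Membership M M]

/-- `f` is an injective function from `X` to `Y` -/
def IsInj (f X Y : M) : Prop := IsFn f X Y ∧ ∀ a b c : M, Pr f a c → Pr f b c → a = b

/-- `q` is the power set of `x` -/
def IsPow (q x : M) : Prop := ∀ z : M, z ∈ q ↔ Sub z x

/-- `x` has cardinality `ℵ₁` (`w` is the set of natural numbers): it is uncountable, and there is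
an injection of `x` into every uncountable set -/
def Aleph1 (w x : M) : Prop :=
  ¬ Countable w x ∧ ∀ z : M, ¬ Countable w z → ∃ f : M, IsInj f x z

/-- the sets `x` and `y` are disjoint -/
def Disj (x y : M) : Prop := ∀ z : M, ¬ (z ∈ x ∧ z ∈ y)

/-- `T` is a topology (the set of open sets) on the set `X` -/
def IsTop (X T : M) : Prop :=
  (∀ U : M, U ∈ T → Sub U X) ∧ X ∈ T ∧
    (∀ U V W : M, U ∈ T → V ∈ T → (∀ z : M, z ∈ W ↔ z ∈ U ∧ z ∈ V) → W ∈ T) ∧
    ∀ S W : M, Sub S T → (∀ z : M, z ∈ W ↔ ∃ U : M, U ∈ S ∧ z ∈ U) → W ∈ T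

/-- `A` is closed: a subset of `X` with open complement -/
def IsClosed (X T A : M) : Prop :=
  Sub A X ∧ ∃ U : M, U ∈ T ∧ ∀ z : M, z ∈ U ↔ z ∈ X ∧ ¬ z ∈ A

/-- the space is normal: disjoint closed sets have disjoint open neighbourhoods -/
def IsNormal (X T : M) : Prop :=
  ∀ A B : M, IsClosed X T A → IsClosed X T B → Disj A B →
    ∃ U V : M, U ∈ T ∧ V ∈ T ∧ Sub A U ∧ Sub B V ∧ Disj U V

/-- `Y` is a closed discrete subspace -/
def ClosedDiscrete (X T Y : M) : Prop :=
  IsClosed X T Y ∧ ∀ y : M, y ∈ Y → ∃ U : M, U ∈ T ∧ y ∈ U ∧ ∀ z : M, z ∈ U → z ∈ Y → z = y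

/-- `f` is a neighbourhood assignment for `Y`: a function giving each `y ∈ Y` an open set `f y`
with `f y ∩ Y = {y}` -/
def Assignment (T Y f : M) : Prop :=
  IsFn f Y T ∧ ∀ y U : M, Pr f y U → y ∈ U ∧ ∀ z : M, z ∈ U → z ∈ Y → z = y

/-- the assignment `f` witnesses the normality of `Z ⊆ Y`: the union of the sets `f y`, `y ∈ Z`,
and the union of the sets `f y`, `y ∈ Y \ Z`, are disjoint -/
def Witnesses (Y f Z : M) : Prop :=
  ∀ z : M, ¬ ((∃ y U : M, y ∈ Z ∧ Pr f y U ∧ z ∈ U) ∧
    ∃ y U : M, (y ∈ Y ∧ ¬ y ∈ Z) ∧ Pr f y U ∧ z ∈ U)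

/-- the family `F` of neighbourhood assignments witnesses the normality of `Y` -/
def WitnessFamily (T Y F : M) : Prop :=
  (∀ f : M, f ∈ F → Assignment T Y f) ∧
    ∀ Z : M, Sub Z Y → ∃ f : M, f ∈ F ∧ Witnesses Y f Z

/-- `Y` is separated: there are pairwise disjoint open sets `s y ∋ y`, `y ∈ Y` -/
def Separated (T Y : M) : Prop :=
  ∃ s : M, IsFn s Y T ∧ (∀ y U : M, Pr s y U → y ∈ U) ∧
    ∀ y y' U U' : M, Pr s y U → Pr s y' U' → ¬ y = y' → Disj U U'

/-- the assertion `(∗)`: for every normal space `X` and every closed discrete `Y ⊆ X` of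
cardinality `ℵ₁`, if some family of at most `2 ^ ℵ₀` neighbourhood assignments witnesses the
normality of `Y`, then `Y` is separated -/
def Star (M : Type*) [Membership M M] : Prop :=
  ∀ w q X T Y F : M, IsOmega w → IsPow q w → IsTop X T → IsNormal X T →
    ClosedDiscrete X T Y → Aleph1 w Y → WitnessFamily T Y F → (∃ j : M, IsInj j F q) →
    Separated T Y

/-- the continuum hypothesis: the power set of the set of natural numbers has cardinality
`ℵ₁` -/
def CH (M : Type*) [Membership M M] : Prop :=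
  ∀ w q : M, IsOmega w → IsPow q w → Aleph1 w q

end Pool.Agent.Helper64.EC
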