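import Pool.Agent.Helper64.EC.Comp
import Pool.Agent.Helper64.EC.Off
import Pool.Agent.Helper73.Off.Bridge

/-!
Separation of a closed discrete set whose points have countable components.
-/

namespace Pool.Agent.Helper64.EC

open Pool.Agent.Helper73.Sym
open Pool.Agent.Helper73

set_option synthInstance.maxSize 2000

section

variable {M : Type} [Membership M M] [StdZF M] {X T Y : M}

theorem top_sub (hT : IsTop X T) {U : M} (hU : U ∈ T) {z : M} (hz : z ∈ U) : z ∈ X :=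
  hT.1 U hU z hz

theorem top_in2 (hT : IsTop X T) {U V : M} (hU : U ∈ T) (hV : V ∈ T) : in2 U V ∈ T :=
  hT.2.2.1 U V _ hU hV fun z => mem_in2 U V z

/-- the set of the points having a neighbourhood in a class of open sets is open -/
theorem top_union (hT : IsTop X T) (S W : M) (hS : Sub S T)
    (hW : ∀ z, z ∈ W ↔ ∃ U, U ∈ S ∧ z ∈ U) : W ∈ T := hT.2.2.2 S W hS hW

/-- subsets of a closed discrete set are closed -/
theorem closed_sub (hT : IsTop X T) (hY : ClosedDiscrete X T Y) {A : M} (hA : Sub A Y) :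
    IsClosed X T A := by
  obtain ⟨⟨hYX, U0, hU0, hU0'⟩, hd⟩ := hY
  refine ⟨fun z hz => hYX z (hA z hz), sep X (fun z => ¬ z ∈ A), ?_, fun z => mem_sep _ _ _⟩
  refine top_union hT (sep T (fun U => ∀ z, z ∈ U → ¬ z ∈ A)) _
    (fun U hU => ((mem_sep _ _ _).1 hU).1) fun z => ?_
  rw [mem_sep]
  constructor
  · rintro ⟨hz, hzA⟩
    by_cases hzY : z ∈ Y
    · obtain ⟨U, hU, hzU, h1⟩ := hd z hzY
      refine ⟨U, (mem_sep _ _ _).2 ⟨hU, fun x hx hxA => ?_⟩, hzU⟩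
      rw [h1 x hx (hA x hxA)] at hxA
      exact hzA hxA
    · refine ⟨U0, (mem_sep _ _ _).2 ⟨hU0, fun x hx hxA => ?_⟩, (hU0' z).2 ⟨hz, hzY⟩⟩
      exact ((hU0' x).1 hx).2 (hA x hxA)
  · rintro ⟨U, hU, hzU⟩
    rw [mem_sep] at hU
    exact ⟨top_sub hT hU.1 hzU, hU.2 z hzU⟩

/-- the point `x` has a neighbourhood disjoint from the set `a` -/
def Far (T a x : M) : Prop := ∃ V, V ∈ T ∧ x ∈ V ∧ ∀ z, z ∈ V → ¬ z ∈ a

instance Dfn.far {t u w : (ℕ → M) → M} [ht : DT t] [hu : DT u] [hw : DT w] :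
    Dfn (fun v => Far (t v) (u v) (w v)) :=
  Dfn.rel3 (R := Far) (inferInstanceAs (Dfn (fun v : ℕ → M =>
    ∃ V, V ∈ v 0 ∧ v 2 ∈ V ∧ ∀ z, z ∈ V → ¬ z ∈ v 1))) ht hu hw

theorem far_open (hT : IsTop X T) (a : M) : sep X (fun x => Far T a x) ∈ T := by
  refine top_union hT (sep T (fun U => ∀ z, z ∈ U → ¬ z ∈ a)) _
    (fun U hU => ((mem_sep _ _ _).1 hU).1) fun z => ?_
  rw [mem_sep]
  constructor
  · rintro ⟨_, V, hV, hz, h⟩
    exact ⟨V, (mem_sep _ _ _).2 ⟨hV, h⟩, hz⟩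
  · rintro ⟨V, hV, hz⟩
    rw [mem_sep] at hV
    exact ⟨top_sub hT hV.1 hz, V, hV.1, hz, hV.2⟩

/-- disjoint neighbourhoods of the points of `Y` and of the rest of `Y` -/
theorem exists_nbhd (hAC : AC M) (hT : IsTop X T) (hN : IsNormal X T)
    (hY : ClosedDiscrete X T Y) : ∃ A : M, Fn A Y T ∧ ∀ y, y ∈ Y → y ∈ ap A y ∧
      ∀ z, z ∈ Y → ¬ z = y → Far T (ap A y) z := by
  refine exists_choice hAC Y T (fun y U => y ∈ U ∧ ∀ z, z ∈ Y → ¬ z = y → Far T U z) ?_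
  intro y hy
  obtain ⟨U, V, hU, hV, h1, h2, h3⟩ := hN (upair y y) (df Y (upair y y))
    (closed_sub hT hY (fun z hz => by
      rw [mem_upair, or_self] at hz
      rw [hz]; exact hy))
    (closed_sub hT hY (df_sub' _ _)) (fun z hz => ((mem_df _ _ _).1 hz.2).2 hz.1)
  refine ⟨U, hU, h1 y ((mem_upair _ _ _).2 (Or.inl rfl)), fun z hz hzy => ?_⟩
  refine ⟨V, hV, h2 z ((mem_df _ _ _).2 ⟨hz, ?_⟩), fun x hx hxU => h3 x ⟨hxU, hx⟩⟩
  rw [mem_upair, or_self]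
  exact hzy

/-- finite intersections of the sets of points far from the first points of `C` are open -/
theorem far_inter (hT : IsTop X T) (A C g : M)
    (hg : ∀ a b, a ∈ C → b ∈ C → ap g a = ap g b → a = b) (n : ℕ) :
    ∃ U, U ∈ T ∧ ∀ x, x ∈ U ↔ x ∈ X ∧
      ∀ y, y ∈ C → ap g y ∈ (nat n : M) → Far T (ap A y) x := by
  induction n with
  | zero =>
    exact ⟨X, hT.2.1, fun x => ⟨fun hx => ⟨hx, fun y _ h => absurd h (mem_nat_zero _)⟩,
      fun hx => hx.1⟩⟩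
  | succ n ih =>
    obtain ⟨U, hU, h1⟩ := ih
    by_cases hex : ∃ y, y ∈ C ∧ ap g y = nat n
    · obtain ⟨y0, hy0, hy0n⟩ := hex
      refine ⟨in2 U (sep X (fun x => Far T (ap A y0) x)), top_in2 hT hU (far_open hT _),
        fun x => ?_⟩
      rw [mem_in2, mem_sep, h1]
      constructor
      · rintro ⟨⟨hx, h2⟩, _, h3⟩
        refine ⟨hx, fun y hy hyn => ?_⟩
        rcases (mem_nat_succ n _).1 hyn with h4 | h4
        · exact h2 y hy h4
        · rw [hg y y0 hy hy0 (h4.trans hy0n.symm)]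
          exact h3
      · rintro ⟨hx, h2⟩
        exact ⟨⟨hx, fun y hy hyn => h2 y hy ((mem_nat_succ n _).2 (Or.inl hyn))⟩, hx,
          h2 y0 hy0 ((mem_nat_succ n _).2 (Or.inr hy0n))⟩
    · refine ⟨U, hU, fun x => ?_⟩
      rw [h1]
      constructor
      · rintro ⟨hx, h2⟩
        refine ⟨hx, fun y hy hyn => ?_⟩
        rcases (mem_nat_succ n _).1 hyn with h4 | h4
        · exact h2 y hy h4
        · exact absurd ⟨y, hy, h4⟩ hex
      · rintro ⟨hx, h2⟩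
        exact ⟨hx, fun y hy hyn => h2 y hy ((mem_nat_succ n _).2 (Or.inl hyn))⟩

/-- `g` is an injection of `C` into the set of natural numbers -/
def Enm (C g : M) : Prop := Fn g C om ∧ ∀ a, a ∈ C → ∀ b, b ∈ C → ap g a = ap g b → a = b

instance Dfn.enm {t u : (ℕ → M) → M} [ht : DT t] [hu : DT u] :
    Dfn (fun v => Enm (t v) (u v)) :=
  Dfn.rel2 (R := Enm) (inferInstanceAs (Dfn (fun v : ℕ → M =>
    Fn (v 1) (v 0) (om : M) ∧ ∀ a, a ∈ v 0 → ∀ b, b ∈ v 0 → ap (v 1) a = ap (v 1) b → a = b)))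
    ht hu

/-- a closed discrete set with countable components is separated -/
theorem separated_of_ctb (hAC : AC M) (hT : IsTop X T) (hN : IsNormal X T)
    (hY : ClosedDiscrete X T Y) {f : M} (hf : Fn f Y T) (hfy : ∀ y, y ∈ Y → y ∈ ap f y)
    (hc : ∀ y, y ∈ Y → Ctb (cmp Y f y)) : Separated T Y := by
  obtain ⟨A, hAf, hA⟩ := exists_nbhd hAC hT hN hY
  -- injections of the components into the natural numbers
  obtain ⟨C0, hC0⟩ : ∃ C0 : M, ∀ C, C ∈ C0 ↔ ∃ y, y ∈ Y ∧ C = cmp Y f y :=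
    ⟨img (fun y => cmp Y f y) Y, mem_img _ _⟩
  obtain ⟨Q, hQ⟩ : ∃ Q : M, ∀ g, g ∈ Q ↔ Sub g (prod Y om) := ⟨pw (prod Y om), mem_pw _⟩
  obtain ⟨ι, _, hι⟩ := exists_choice hAC C0 Q
    (fun C g => Enm C g) (by
      intro C hC
      rw [hC0] at hC
      obtain ⟨y, hy, rfl⟩ := hC
      obtain ⟨g, hg, hgi⟩ := hc y hy
      refine ⟨g, ?_, hg, fun a ha b hb => hgi a b ha hb⟩
      rw [hQ]
      intro z hz
      obtain ⟨a, ha, b, hb, rfl⟩ := hg.1 z hz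
      exact (op_mem_prod _ _ _ _).2 ⟨cmp_sub _ _ _ _ ha, hb⟩)
  have hι' : ∀ y, y ∈ Y → Fn (ap ι (cmp Y f y)) (cmp Y f y) om ∧
      ∀ a, a ∈ cmp Y f y → ∀ b, b ∈ cmp Y f y →
        ap (ap ι (cmp Y f y)) a = ap (ap ι (cmp Y f y)) b → a = b :=
    fun y hy => hι _ ((hC0 _).2 ⟨y, hy, rfl⟩)
  set s : M := rel Y T (fun y V => ∀ x, x ∈ V ↔ (x ∈ ap f y ∧ x ∈ ap A y ∧
    ∀ y', y' ∈ cmp Y f y → ap (ap ι (cmp Y f y)) y' ∈ ap (ap ι (cmp Y f y)) y →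
      Far T (ap A y') x)) with hs
  have hmem : ∀ y V, op y V ∈ s ↔ y ∈ Y ∧ V ∈ T ∧ ∀ x, x ∈ V ↔ (x ∈ ap f y ∧ x ∈ ap A y ∧
    ∀ y', y' ∈ cmp Y f y → ap (ap ι (cmp Y f y)) y' ∈ ap (ap ι (cmp Y f y)) y →
      Far T (ap A y') x) := fun y V => op_mem_rel _ _ _ _ _
  have hsf : Fn s Y T := by
    refine rel_fn fun y hy => ?_
    obtain ⟨hg, hgi⟩ := hι' y hy
    obtain ⟨n, hn⟩ := (mem_om _).1 (ap_mem hg (cmp_self hy))
    obtain ⟨U, hU, h1⟩ := far_inter hT A (cmp Y f y) (ap ι (cmp Y f y))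
      (fun a b ha hb => hgi a ha b hb) n
    have hAT : ap A y ∈ T := ap_mem hAf hy
    refine ⟨in2 (in2 (ap f y) (ap A y)) U, top_in2 hT (top_in2 hT (ap_mem hf hy) hAT) hU,
      fun x => ?_, fun V _ hV => mext fun x => ?_⟩
    · rw [mem_in2, mem_in2, h1, hn]
      constructor
      · rintro ⟨⟨h2, h3⟩, _, h4⟩
        exact ⟨h2, h3, h4⟩
      · rintro ⟨h2, h3, h4⟩
        exact ⟨⟨h2, h3⟩, top_sub hT (ap_mem hf hy) h2, h4⟩
    · rw [hV, mem_in2, mem_in2, h1, hn]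
      constructor
      · rintro ⟨h2, h3, h4⟩
        exact ⟨⟨h2, h3⟩, top_sub hT (ap_mem hf hy) h2, h4⟩
      · rintro ⟨⟨h2, h3⟩, _, h4⟩
        exact ⟨h2, h3, h4⟩
  refine ⟨s, Off.isFn_iff.2 hsf, ?_, ?_⟩
  · intro y U hyU
    obtain ⟨hy, hU, h1⟩ := (hmem y U).1 (Off.pr_iff.1 hyU)
    rw [h1]
    refine ⟨hfy y hy, (hA y hy).1, fun y' hy' hlt => (hA y' (cmp_sub _ _ _ _ hy')).2 y hy ?_⟩
    rintro rfl
    exact not_mem_self _ hlt
  · intro y y' U U' hyU hyU' hne z hz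
    obtain ⟨hy, hU, h1⟩ := (hmem y U).1 (Off.pr_iff.1 hyU)
    obtain ⟨hy', hU', h1'⟩ := (hmem y' U').1 (Off.pr_iff.1 hyU')
    obtain ⟨h2, h3, h4⟩ := (h1 z).1 hz.1
    obtain ⟨h2', h3', h4'⟩ := (h1' z).1 hz.2
    have hcc : y' ∈ cmp Y f y := cmp_of_meet hy' h2 h2'
    have hcc' : y ∈ cmp Y f y := cmp_self hy
    have he : cmp Y f y' = cmp Y f y := cmp_eq hy hcc
    obtain ⟨hg, hgi⟩ := hι' y hy
    obtain ⟨n, hn⟩ := (mem_om _).1 (ap_mem hg hcc')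
    obtain ⟨m, hm⟩ := (mem_om _).1 (ap_mem hg hcc)
    have hnm : n ≠ m := by
      rintro rfl
      exact hne (hgi _ hcc' _ hcc (hn.trans hm.symm))
    rcases Nat.lt_or_gt_of_ne hnm with hlt | hlt
    · obtain ⟨V, _, hzV, hV⟩ := h4' y (by rw [he]; exact hcc') (by
        rw [he, hn, hm]; exact nat_mem_nat.2 hlt)
      exact hV z hzV h3
    · obtain ⟨V, _, hzV, hV⟩ := h4 y' hcc (by rw [hn, hm]; exact nat_mem_nat.2 hlt)
      exact hV z hzV h3'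

end

end Pool.Agent.Helper64.EC
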