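import Pool.Agent.Helper64.EC.Sepn

/-!
The assertion `(∗)` and the failure of the continuum hypothesis in the generic model.
-/

namespace Pool.Agent.Helper64.EC

open Pool.Agent.Helper73.Sym
open Pool.Agent.Helper73

section

variable {M : Type} [Membership M M] [StdZF M]

theorem omega_eq {w : M} (h : Off.IsOmega w) : w = om :=
  sub_antisymm (h.2 om Off.isOmega_om.1) (Off.isOmega_om.2 w h.1)

theorem pow_eq {q x : M} (h : IsPow q x) : q = pw x :=
  mext fun z => by rw [h z, mem_pw]; rfl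

theorem isInj_iff {f x y : M} :
    IsInj f x y ↔ Fn f x y ∧ ∀ a b, a ∈ x → b ∈ x → ap f a = ap f b → a = b := by
  simp only [IsInj, Off.isFn_iff]
  refine and_congr_right fun hf => ?_
  simp only [Off.pr_ap hf]
  constructor
  · intro h a b ha hb hab
    exact h a b (ap f a) ⟨ha, rfl⟩ ⟨hb, hab⟩
  · rintro h a b c ⟨ha, rfl⟩ ⟨hb, hab⟩
    exact h a b ha hb hab

theorem witS_of {T Y f Z : M} (hf : Fn f Y T) (h : Witnesses Y f Z) (hZ : Sub Z Y) :
    WitS Y f Z := by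
  intro a ha b hb hbZ z hza hzb
  exact h z ⟨⟨a, ap f a, ha, (Off.pr_ap hf).2 ⟨hZ a ha, rfl⟩, hza⟩,
    ⟨b, ap f b, ⟨hb, hbZ⟩, (Off.pr_ap hf).2 ⟨hb, rfl⟩, hzb⟩⟩

/-- the assertion `(∗)` follows from the principle `PB` for an uncountable set `W` -/
theorem star_of (hAC : AC M) {W : M} (hW : ¬ Ctb W) (hPB : PB W) : Star M := by
  intro w q X T Y F hw hq hT hN hY hYa hF ⟨j, hj⟩
  obtain rfl := omega_eq hw
  obtain rfl := pow_eq hq
  obtain ⟨hj1, hj2⟩ := isInj_iff.1 hj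
  obtain ⟨e, he⟩ := hYa.2 W (by rwa [Off.countable_iff])
  obtain ⟨he1, he2⟩ := isInj_iff.1 he
  have hfn : ∀ f, f ∈ F → Fn f Y T := fun f hf => Off.isFn_iff.1 (hF.1 f hf).1
  obtain ⟨f, hf, hc⟩ := exists_ctb_comp hAC hPB hj1 hj2 he1 he2 (F := F) (fun Z hZ => by
    obtain ⟨f, hf, h⟩ := hF.2 Z hZ
    exact ⟨f, hf, witS_of (hfn f hf) h hZ⟩)
  refine separated_of_ctb hAC hT hN hY (hfn f hf) (fun y hy => ?_) hc
  exact ((hF.1 f hf).2 y (ap f y) ((Off.pr_ap (hfn f hf)).2 ⟨hy, rfl⟩)).1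

/-- the continuum hypothesis fails if the set of reals has no injection into some uncountable
set -/
theorem not_ch_of {W : M} (hW : ¬ Ctb W)
    (h : ∀ f : M, Fn f (pw om) W →
      (∀ a b : M, a ∈ (pw om : M) → b ∈ (pw om : M) → ap f a = ap f b → a = b) → False) :
    ¬ CH M := by
  intro hCH
  obtain ⟨f, hf⟩ := (hCH om (pw om) Off.isOmega_om (fun z => mem_pw _ _)).2 W
    (by rwa [Off.countable_iff])
  obtain ⟨h1, h2⟩ := isInj_iff.1 hf
  exact h f h1 h2

end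

/-- there is a model of ZFC in which `(∗)` holds and the continuum hypothesis fails -/
theorem main : ∃ (M : Type) (_ : Membership M M), IsZFC M ∧ Star M ∧ ¬ CH M := by
  obtain ⟨M, hM, hZ, hAC, W, hW, hPB, hch⟩ := exists_model
  refine ⟨M, hM, ⟨hAC⟩, star_of hAC hW hPB, not_ch_of hW hch⟩

end Pool.Agent.Helper64.EC
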